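import Pool.Agent.N173.BG.Stm

/-!
Project MSB (helper173), part CONST (helper622): constant radius and `O(log (1/α))` frequencies.
-/

set_option autoImplicit false

namespace Pool.Agent.N622.BG

open Finset Pool.Agent.TH858 Pool.Agent.TH858.GP Pool.Agent.N173.BG

theorem t_CONST (h1 : S_THM) (h2 : S_DBL) : S_CONST := by
  refine ⟨10 ^ 13, by norm_num, ?_⟩
  intro N hN0 A K hA hα hK
  have hNpos : (0 : ℝ) < N := by exact_mod_cast Nat.pos_of_ne_zero hN0.out
  have hApos : (0 : ℝ) < A.card := by exact_mod_cast hA.card_pos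
  set l : ℝ := Real.log ((N : ℝ) / A.card) with hl
  have hNA : 2 ≤ (N : ℝ) / A.card := by
    rw [le_div_iff₀ hApos]
    rw [div_le_iff₀ hNpos] at hα
    linarith
  have hlog2 := Real.log_two_gt_d9
  have hlog2' := Real.log_two_lt_d9
  have hl2 : Real.log 2 ≤ l := Real.log_le_log (by norm_num) hNA
  have hl0 : 0 < l := by linarith
  set D : ℝ := Real.log (4 * N / A.card) with hD
  have hDl : D = l + 2 * Real.log 2 := by
    rw [hD, hl, mul_div_assoc, Real.log_mul (by norm_num) (by positivity),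
      show (4 : ℝ) = 2 ^ 2 by norm_num, Real.log_pow]
    push_cast
    ring
  set M : ℕ := ⌈D⌉₊ with hM
  have hDM : D ≤ M := Nat.le_ceil D
  have hD0 : 0 ≤ D := by rw [hDl]; linarith
  have hMD : (M : ℝ) < D + 1 := Nat.ceil_lt_add_one hD0
  have hM2 : 2 ≤ M := by
    have : (1 : ℝ) < M := by
      refine lt_of_lt_of_le ?_ hDM
      rw [hDl]
      linarith
    have : 1 < M := by exact_mod_cast this
    omega
  set H : ℕ := 2 * M + 3 with hH
  have hHr : (H : ℝ) = 2 * M + 3 := by rw [hH]; push_cast; ring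
  have hMl : (M : ℝ) ≤ 4.5 * l := by
    rw [hDl] at hMD
    nlinarith
  have hHl : (H : ℝ) ≤ 13.4 * l := by
    rw [hHr]
    rw [hDl] at hMD
    nlinarith
  have h4N : 4 * (N : ℝ) ≤ Real.exp M * A.card := by
    rw [← div_le_iff₀ hApos, ← Real.log_le_iff_le_exp (by positivity)]
    exact hDM
  have hKn : 333000 * M ^ 7 * H ^ 2 ≤ K := by
    have h3 : (333000 * (M : ℝ) ^ 7 * (H : ℝ) ^ 2) ≤ K := by
      refine le_trans ?_ hK
      have h4 : (M : ℝ) ^ 7 ≤ (4.5 * l) ^ 7 := pow_le_pow_left₀ (by positivity) hMl 7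
      have h5 : (H : ℝ) ^ 2 ≤ (13.4 * l) ^ 2 := pow_le_pow_left₀ (by positivity) hHl 2
      calc 333000 * (M : ℝ) ^ 7 * (H : ℝ) ^ 2 ≤ 333000 * (4.5 * l) ^ 7 * (13.4 * l) ^ 2 := by
            gcongr
        _ = (333000 * 4.5 ^ 7 * 13.4 ^ 2) * l ^ 9 := by ring
        _ ≤ 10 ^ 13 * l ^ 9 := by
            refine mul_le_mul_of_nonneg_right ?_ (by positivity)
            norm_num
    exact_mod_cast h3
  obtain ⟨Γ, hΓ, hΓx⟩ := h1 N A M H K hA h4N le_rfl hKn
  set s : ℕ := Nat.log 2 H + 1 with hs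
  obtain ⟨Γ', hΓ', hΓx'⟩ := h2 N Γ s
  have hH7 : 7 ≤ H := by omega
  have hH7r : (7 : ℝ) ≤ H := by exact_mod_cast hH7
  refine ⟨Γ', ?_, ?_⟩
  · -- the size
    have hH0 : (0 : ℝ) < H := by linarith
    have hLH : Real.log 4 ≤ Real.log H := Real.log_le_log (by norm_num) (by linarith)
    have hL4 : Real.log 4 = 2 * Real.log 2 := by
      rw [show (4 : ℝ) = 2 ^ 2 by norm_num, Real.log_pow]
      push_cast
      ring
    have hLpos : 0 < Real.log H := by linarith
    have h3 : Real.log H ≤ 3 * Real.log ((H : ℝ) / 2) := by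
      have h4 : Real.log (((H : ℝ) / 2) ^ 3) = 3 * Real.log ((H : ℝ) / 2) := by
        rw [Real.log_pow]
        push_cast
        ring
      rw [← h4]
      refine Real.log_le_log hH0 ?_
      nlinarith [mul_self_nonneg ((H : ℝ) - 7), mul_pos hH0 hH0]
    have hL2pos : 0 < Real.log ((H : ℝ) / 2) := by linarith
    have h4 : D / Real.log ((H : ℝ) / 2) ≤ 3 * (D / Real.log H) := by
      rw [mul_div_assoc', div_le_div_iff₀ hL2pos hLpos]
      nlinarith
    have h5 : (Γ.card : ℝ) ≤ 24 + 148 * (D / Real.log H) := by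
      refine hΓ.trans ?_
      linarith
    have h6 : ((s : ℝ) + 1) ≤ 4 * Real.log H := by
      have h7 : ((2 : ℝ)) ^ (Nat.log 2 H) ≤ H := by
        exact_mod_cast Nat.pow_log_le_self 2 (by omega)
      have h8 : (Nat.log 2 H : ℝ) * Real.log 2 ≤ Real.log H := by
        rw [← Real.log_pow]
        exact Real.log_le_log (by positivity) h7
      have h9 : (s : ℝ) = Nat.log 2 H + 1 := by rw [hs]; push_cast; ring
      rw [h9]
      nlinarith
    have h7 : (Γ'.card : ℝ) ≤ (s + 1) * Γ.card := by exact_mod_cast hΓ'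
    calc (Γ'.card : ℝ) ≤ (s + 1) * Γ.card := h7
      _ ≤ (4 * Real.log H) * (24 + 148 * (D / Real.log H)) := by
          refine mul_le_mul h6 h5 (by positivity) (by positivity)
      _ = 96 * Real.log H + 592 * D := by
          field_simp
          ring
      _ ≤ 96 * H + 592 * D := by
          have := Real.log_le_sub_one_of_pos hH0
          linarith
      _ ≤ 10 ^ 13 * l := by
          rw [hDl]
          nlinarith
  · intro x hx
    refine hΓx x fun γ hγ => (hΓx' x hx γ hγ).trans ?_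
    have hH0 : (0 : ℝ) < H := by linarith
    have h3' : H ≤ 2 ^ s := (Nat.lt_pow_succ_log_self (b := 2) (by norm_num) H).le
    have h3 : (H : ℝ) ≤ 2 ^ s := by exact_mod_cast h3'
    have h4 : (8 : ℝ) * H ≤ 8 * 2 ^ s := by linarith
    exact one_div_le_one_div_of_le (by positivity) h4

end Pool.Agent.N622.BG
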